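import Pool.Agent.W292.RG.Stm

set_option autoImplicit false

namespace Pool.Agent.W997.RG

open Finset Pool.Agent.W292.RG

/-- Double counting of the edges of the complement between `S` and `A`. -/
theorem DC : St_DC := by
  classical
  intro V _ _ G S A d D hd _ hSA
  have hnd : ∀ x, ndeg G x = (univ.filter (fun y => Gᶜ.Adj x y)).card := by
    intro x
    unfold ndeg
    rw [Set.ncard_eq_toFinset_card']
    congr 1
    ext y
    simp
  have h1 : ∀ x ∈ S, d ≤ (A.filter (fun y => Gᶜ.Adj x y)).card := by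
    intro x hx
    have h2 := (hd x).1
    rw [hnd x] at h2
    refine h2.trans (card_le_card ?_)
    intro y hy
    rw [mem_filter] at hy ⊢
    exact ⟨hSA x hx y hy.2, hy.2⟩
  have h2 : ∀ y ∈ A, (S.filter (fun x => Gᶜ.Adj x y)).card ≤ D := by
    intro y _
    have h3 := (hd y).2
    rw [hnd y] at h3
    refine le_trans (card_le_card ?_) h3
    intro x hx
    rw [mem_filter] at hx ⊢
    exact ⟨mem_univ _, hx.2.symm⟩
  have h3 : ∑ x ∈ S, (A.filter (fun y => Gᶜ.Adj x y)).card =
      ∑ y ∈ A, (S.filter (fun x => Gᶜ.Adj x y)).card := by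
    simp only [card_filter]
    exact sum_comm
  calc d * S.card = ∑ _x ∈ S, d := by rw [sum_const, smul_eq_mul, mul_comm]
    _ ≤ ∑ x ∈ S, (A.filter (fun y => Gᶜ.Adj x y)).card := sum_le_sum h1
    _ = ∑ y ∈ A, (S.filter (fun x => Gᶜ.Adj x y)).card := h3
    _ ≤ ∑ _y ∈ A, D := sum_le_sum h2
    _ = D * A.card := by rw [sum_const, smul_eq_mul, mul_comm]

end Pool.Agent.W997.RG
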